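import Pool.Agent.Y264.QR.Stm
import Pool.Agent.Y592.QE.Spec

/-!
# Project QR: one direction of a quasi-invariant law
-/

set_option autoImplicit false

open Set Filter Topology MeasureTheory
open scoped Real ContDiff
open Pool.Agent.Y262.QE
open Pool.Agent.Y264.QR

noncomputable section

namespace Pool.Agent.Y319.QR

/-- a differentiable function with an upper bound of first order has this derivative -/
lemma der_of_upper {f : ℝ → ℝ} (c : ℝ) (hf : DifferentiableAt ℝ f 0)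
    (hup : ∀ ε : ℝ, 0 < ε → ∃ δ : ℝ, 0 < δ ∧ ∀ τ : ℝ, |τ| < δ → f τ ≤ f 0 + c * τ + ε * |τ|) :
    HasDerivAt f c 0 := by
  have h1 := hf.hasDerivAt
  suffices h : deriv f 0 = c by rwa [h] at h1
  by_contra hne
  set D := deriv f 0
  have hpos : 0 < |D - c| := abs_pos.mpr (sub_ne_zero.mpr hne)
  have h2 := hasDerivAt_iff_isLittleO_nhds_zero.mp h1
  have h3 := h2.def (show 0 < |D - c| / 4 by positivity)
  obtain ⟨δ, hδ, hup'⟩ := hup (|D - c| / 4) (by positivity)
  obtain ⟨δ', hδ', h4⟩ := Metric.eventually_nhds_iff_ball.mp h3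
  obtain ⟨r, hr0, hr1, hr2⟩ : ∃ r : ℝ, 0 < r ∧ r < δ ∧ r < δ' :=
    ⟨min δ δ' / 2, by positivity, by have := min_le_left δ δ'; have : 0 < min δ δ' := by positivity
                                     linarith [min_le_left δ δ'],
      by have : 0 < min δ δ' := by positivity
         linarith [min_le_right δ δ']⟩
  obtain ⟨s, hs, hsD⟩ : ∃ s : ℝ, |s| = r ∧ (D - c) * s = |D - c| * r := by
    rcases lt_or_gt_of_ne (sub_ne_zero.mpr hne) with h | h
    · refine ⟨-r, by rw [abs_neg, abs_of_pos hr0], ?_⟩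
      rw [abs_of_neg h]; ring
    · refine ⟨r, abs_of_pos hr0, ?_⟩
      rw [abs_of_pos h]
  have h5 := hup' s (by rw [hs]; exact hr1)
  have h6 := h4 s (by rw [Metric.mem_ball, dist_zero_right, Real.norm_eq_abs, hs]; exact hr2)
  rw [zero_add, Real.norm_eq_abs, Real.norm_eq_abs, smul_eq_mul] at h6
  have h7 := (abs_le.mp h6).1
  rw [hs] at h5 h7
  have h8 : 0 < |D - c| * r := by positivity
  nlinarith [h5, h7, hsD, h8]

/-- a differentiable majorant has the same derivative at a point of contact -/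
lemma der_of_touch {f g : ℝ → ℝ} {c : ℝ} (hf : HasDerivAt f c 0) (hg : DifferentiableAt ℝ g 0)
    (hle : ∀ t, f t ≤ g t) (h0 : f 0 = g 0) : HasDerivAt g c 0 := by
  have h1 := hg.hasDerivAt
  suffices h : deriv g 0 = c by rwa [h] at h1
  have h2 : HasDerivAt (fun t => g t - f t) (deriv g 0 - c) 0 := h1.sub hf
  have h3 : IsLocalMin (fun t => g t - f t) 0 := by
    refine Filter.Eventually.of_forall fun t => ?_
    show g 0 - f 0 ≤ g t - f t
    linarith [hle t]
  have h4 := h3.hasDerivAt_eq_zero h2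
  linarith

lemma b_unique {M : Type} [TopologicalSpace M] [MeasurableSpace M] {H : Type}
    [NormedAddCommGroup H] [InnerProductSpace ℝ H] {μ : Measure M} {i : H →L[ℝ] Lp ℝ 2 μ}
    {b b' : C(M, ℝ) → H →L[ℝ] H →L[ℝ] ℝ} (h1 : IsB μ i b) (h2 : IsB μ i b') : b = b' := by
  funext φ
  ext u v
  rw [h1 φ u v, h2 φ u v]

/-- the derivative of all branches at a point of differentiability -/
lemma point (hD : StDer0) {M : Type} [MetricSpace M] [CompactSpace M] {H : Type}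
    [NormedAddCommGroup H] [InnerProductSpace ℝ H] (a : H →L[ℝ] H →L[ℝ] ℝ)
    (b : C(M, ℝ) → H →L[ℝ] H →L[ℝ] ℝ) (hFm : ∀ φ, Fm a (b φ))
    (hmon : ∀ φ i j, i ≤ j → Ev a (b φ) i ≤ Ev a (b φ) j) (h : C(M, ℝ)) (k : H →L[ℝ] H →L[ℝ] ℝ)
    (K : ℝ) (φ : C(M, ℝ)) (hks : ∀ u v, k u v = k v u) (hkb : ∀ v, |k v v| ≤ K * b φ v v)
    (hkt : ∀ v (τ : ℝ), b φ v v + τ * k v v ≤ b (φ + τ • h) v v) (e : ℕ → H) (E : ℕ → ℝ)
    (hEg : Eg a (b φ) e E)
    (hdiff : ∀ l, DifferentiableAt ℝ (fun t : ℝ => Ev a (b (φ + t • h)) l) 0) (j : ℕ) :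
    HasDerivAt (fun t : ℝ => Ev a (b (φ + t • h)) j) (-(k (e j) (e j) * Ev a (b φ) j)) 0 := by
  have hE : ∀ l, Ev a (b φ) l = E l :=
    fun l => Pool.Agent.Y592.QE.mm H a (b φ) (hFm φ) e E hEg l
  have hex : ∃ i, E i = E j := ⟨j, rfl⟩
  classical
  obtain ⟨i0, hi0, hmin⟩ : ∃ i0, E i0 = E j ∧ ∀ l, l < i0 → E l < E i0 := by
    refine ⟨Nat.find hex, Nat.find_spec hex, fun l hl => ?_⟩
    have h1 : E l ≤ E (Nat.find hex) := hEg.mono hl.le
    have h2 : E l ≠ E (Nat.find hex) := by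
      intro h3
      exact Nat.find_min hex hl (h3.trans (Nat.find_spec hex))
    exact lt_of_le_of_ne h1 h2
  have hder := hD H a (b φ) (hFm φ) e E hEg k K hks hkb i0 j hi0 hmin
  have hz : φ + (0 : ℝ) • h = φ := by rw [zero_smul, add_zero]
  have h1 : HasDerivAt (fun t : ℝ => Ev a (b (φ + t • h)) i0) (-(k (e j) (e j) * E i0)) 0 := by
    refine der_of_upper _ (hdiff i0) fun ε hε => ?_
    obtain ⟨δ, hδ, hup⟩ := hder ε hε
    refine ⟨δ, hδ, fun τ hτ => ?_⟩
    have h2 := hup τ hτ (b (φ + τ • h)) (fun v => hkt v τ)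
    show Ev a (b (φ + τ • h)) i0 ≤ Ev a (b (φ + (0 : ℝ) • h)) i0 + _ + _
    rw [hz, hE i0]
    linarith
  have hij : i0 ≤ j := by
    by_contra hlt
    push_neg at hlt
    have := hmin j hlt
    rw [hi0] at this
    exact lt_irrefl _ this
  have h2 := der_of_touch h1 (hdiff j) (fun t => hmon _ _ _ hij) (by
    show Ev a (b (φ + (0 : ℝ) • h)) i0 = Ev a (b (φ + (0 : ℝ) • h)) j
    rw [hz, hE, hE, hi0])
  rw [hE j, ← hi0]
  exact h2

/-- the derivative along a translated line -/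
lemma shift_der {M : Type} [MetricSpace M] [CompactSpace M] {G : C(M, ℝ) → ℝ} {φ h : C(M, ℝ)}
    {t D : ℝ} (hG : HasDerivAt (fun s : ℝ => G (φ + s • h)) D t) :
    HasDerivAt (fun τ : ℝ => G ((φ + t • h) + τ • h)) D 0 := by
  have h1 : HasDerivAt (fun τ : ℝ => t + τ) 1 0 := (hasDerivAt_id (0 : ℝ)).const_add t
  have h2 : HasDerivAt (fun s : ℝ => G (φ + s • h)) D (t + 0) := by rw [add_zero]; exact hG
  have h3 := h2.comp (0 : ℝ) h1
  rw [mul_one] at h3
  have h4 : (fun τ : ℝ => G ((φ + t • h) + τ • h)) =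
      (fun s : ℝ => G (φ + s • h)) ∘ fun τ : ℝ => t + τ := by
    funext τ
    show G ((φ + t • h) + τ • h) = G (φ + (t + τ) • h)
    rw [add_assoc, ← add_smul]
  rw [h4]
  exact h3

/-- the clipped logarithmic derivative -/
def XX {M : Type} [MetricSpace M] [CompactSpace M] (G : C(M, ℝ) → ℝ) (h φ : C(M, ℝ)) : ℝ :=
  max (-‖h‖) (min ‖h‖ (-(deriv (fun t : ℝ => G (φ + t • h)) 0) / G φ))

lemma XX_eq {M : Type} [MetricSpace M] [CompactSpace M] {G : C(M, ℝ) → ℝ} {h φ : C(M, ℝ)} {κ : ℝ}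
    (hG : HasDerivAt (fun t : ℝ => G (φ + t • h)) (-(κ * G φ)) 0) (hpos : 0 < G φ)
    (hκ : |κ| ≤ ‖h‖) : XX G h φ = κ := by
  unfold XX
  rw [hG.deriv, neg_neg, mul_div_cancel_right₀ _ hpos.ne']
  obtain ⟨h1, h2⟩ := abs_le.mp hκ
  rw [min_eq_right h2, max_eq_right h1]

lemma XX_bd {M : Type} [MetricSpace M] [CompactSpace M] (G : C(M, ℝ) → ℝ) (h φ : C(M, ℝ)) :
    |XX G h φ| ≤ ‖h‖ := by
  unfold XX
  rw [abs_le]
  constructor
  · exact le_max_left _ _
  · exact max_le (by linarith [norm_nonneg h]) (min_le_left _ _)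

/-- **One direction of a quasi-invariant law.** -/
theorem dr : StDer0 → StOneP → StQN → StQW → StCM → StFm → StLip → StDr := by
  intro hD hOne hQN hQW hCM hFmS hLip M _ _ _ _ μ _ _ _ H _ _ i a b hSf hB hW e E hEg P _ h hac
  obtain ⟨b', hB', hFm, hpos, hcmp, hk⟩ := hFmS M μ H i a hSf
  have hbb : b' = b := b_unique hB' hB
  subst hbb
  obtain ⟨k, hks, hkk, hkt⟩ := hk h
  obtain ⟨-, hmon, -, hcont, hdich⟩ := hLip M μ H a b' hFm hcmp
  obtain ⟨hcm1, hcm2, hcm3, hcm4⟩ := hCM M μ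
  have hFlw := hcm4 P h hac
  -- the bound of the densities
  have hkap : ∀ φ j, |kap μ i h φ (e φ j)| ≤ ‖h‖ := by
    intro φ j
    have h1 := (hkk φ (e φ j)).2
    rw [(hkk φ (e φ j)).1, (hEg φ).orth, if_pos rfl, mul_one] at h1
    exact h1
  -- the statement on one line
  have hline : ∀ φ : C(M, ℝ), ∀ᵐ t : ℝ, ∀ j, HasDerivAt
      (fun τ : ℝ => Ev a (b' ((φ + t • h) + τ • h)) j)
      (-(kap μ i h (φ + t • h) (e (φ + t • h) j) * Ev a (b' (φ + t • h)) j)) 0 := by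
    intro φ
    have h1 := (hOne M μ H i a b' hSf hB hW φ h (fun t => e (φ + t • h))
      (fun t => E (φ + t • h)) (fun t => hEg (φ + t • h))).1
    filter_upwards [h1] with t ht j
    exact shift_der (G := fun φ => Ev a (b' φ) j) (ht j)
  -- the null set
  have hnull : ∀ᵐ φ ∂P, ∀ j, DifferentiableAt ℝ (fun t : ℝ => Ev a (b' (φ + t • h)) j) 0 := by
    rw [ae_all_iff]
    intro j
    have h1 : MeasurableSet {φ : C(M, ℝ) |
        ¬ DifferentiableAt ℝ (fun t : ℝ => Ev a (b' (φ + t • h)) j) 0} :=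
      (hcm1 (fun φ => Ev a (b' φ) j) (hcont j) h).2.compl
    have h2 := hQN C(M, ℝ) P (fun (t : ℝ) φ => φ + t • h) hFlw _ h1 (by
      intro φ
      filter_upwards [hline φ] with t ht
      exact fun hn => hn (ht j).differentiableAt)
    exact h2
  have hae : ∀ᵐ φ ∂P, ∀ j, HasDerivAt (fun t : ℝ => Ev a (b' (φ + t • h)) j)
      (-(kap μ i h φ (e φ j) * Ev a (b' φ) j)) 0 := by
    filter_upwards [hnull] with φ hφ j
    have h1 := point hD a b' hFm hmon h (k φ) ‖h‖ φ (hks φ) (fun v => (hkk φ v).2)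
      (fun v τ => hkt φ v τ) (e φ) (E φ) (hEg φ) hφ j
    rw [(hkk φ (e φ j)).1] at h1
    exact h1
  have hXm : ∀ j, Measurable (fun φ => XX (fun φ => Ev a (b' φ) j) h φ) := by
    intro j
    have h1 := (hcm1 (fun φ => Ev a (b' φ) j) (hcont j) h).1
    have h2 : Measurable fun φ => Ev a (b' φ) j := (hcont j).measurable
    exact measurable_const.max (measurable_const.min (h1.neg.div h2))
  have hXae : ∀ j, (∀ φ, 0 < Ev a (b' φ) j) →
      (fun φ => kap μ i h φ (e φ j)) =ᵐ[P] fun φ => XX (fun φ => Ev a (b' φ) j) h φ := by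
    intro j hj
    filter_upwards [hae] with φ hφ
    exact (XX_eq (G := fun φ => Ev a (b' φ) j) (hφ j) (hj φ) (hkap φ j)).symm
  refine ⟨fun j hj => ?_, fun χ hχ => ?_⟩
  · exact (hXm j).aestronglyMeasurable.congr (hXae j hj).symm
  -- the eigenvalues are positive from some index on
  obtain ⟨J, hJ⟩ : ∃ J, ∀ j, J ≤ j → ∀ φ, 0 < Ev a (b' φ) j := by
    have h1 := (hEg 0).tt
    obtain ⟨J, hJ⟩ := (h1.eventually_gt_atTop 0).exists
    have hE : Ev a (b' 0) J = E 0 J := Pool.Agent.Y592.QE.mm H a (b' 0) (hFm 0) _ _ (hEg 0) J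
    have h2 : ∀ φ, 0 < Ev a (b' φ) J := by
      rcases hdich J with h3 | h3
      · have := h3 0
        rw [hE] at this
        exact absurd this hJ.ne'
      · exact h3
    exact ⟨J, fun j hj φ => (h2 φ).trans_le (hmon φ J j hj)⟩
  have hmain := hQW C(M, ℝ) P (fun (t : ℝ) φ => φ + t • h) hFlw
    (fun j φ => XX (fun φ => Ev a (b' φ) (j + J)) h φ) (fun φ => avg μ h φ) ‖h‖
    (fun j => hXm (j + J)) (hcm2 h).measurable (fun j φ => XX_bd _ h φ) (fun φ => hcm3 h φ) (by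
      intro φ χ' hχ'
      have h1 := (hOne M μ H i a b' hSf hB hW φ h (fun t => e (φ + t • h))
        (fun t => E (φ + t • h)) (fun t => hEg (φ + t • h))).2 χ' hχ'
      have h2 := h1.comp (tendsto_add_atTop_nat J)
      refine h2.congr fun j => ?_
      refine integral_congr_ae ?_
      filter_upwards [hline φ] with t ht
      show χ' t * kap μ i h (φ + t • h) (e (φ + t • h) (j + J)) = _
      rw [XX_eq (G := fun φ => Ev a (b' φ) (j + J)) (ht (j + J))
        (hJ _ (Nat.le_add_left _ _) _) (hkap _ _)]) χ hχ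
  refine (tendsto_add_atTop_iff_nat J).1 ?_
  refine hmain.congr fun j => ?_
  refine integral_congr_ae ?_
  filter_upwards [hXae (j + J) (hJ _ (Nat.le_add_left _ _))] with φ hφ
  rw [hφ]

end Pool.Agent.Y319.QR
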