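import Pool.Agent.Y264.QR.Stm2
import Pool.Agent.Y93.QE.W1
import Pool.Agent.Y540.QE.Sub
import Pool.Agent.Y960.QE.Int
import Pool.Agent.Y708.QE.Gr
import Pool.Agent.Y274.QE.Fin

/-!
# Project QR: the spectral inequality on a small closed set
-/

set_option autoImplicit false

open Set Filter Topology MeasureTheory
open scoped Real ContDiff
open Pool.Agent.Y262.QE
open Pool.Agent.Y264.QR
open Pool.Agent.Y93.QE (grd_le sq_closed sq_cpt)

noncomputable section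

namespace Pool.Agent.Y319.QR

/-! ### The grid -/

/-- the centers of the grid -/
def cen (r : ℝ) (p : ℤ × ℤ) : ℂ := ⟨2 * r * p.1, 2 * r * p.2⟩

lemma sq_norm {c z w : ℂ} {r : ℝ} (hz : z ∈ Sq c r) (hw : w ∈ Sq c r) : ‖z - w‖ ≤ 4 * r := by
  have h1 := Complex.norm_le_abs_re_add_abs_im (z - w)
  rw [Complex.sub_re, Complex.sub_im] at h1
  have h2 : |z.re - w.re| ≤ 2 * r := by
    have := abs_sub_le z.re c.re w.re
    have h3 := hz.1
    have h4 := hw.1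
    rw [abs_sub_comm] at h4
    linarith
  have h3 : |z.im - w.im| ≤ 2 * r := by
    have := abs_sub_le z.im c.im w.im
    have h3 := hz.2
    have h4 := hw.2
    rw [abs_sub_comm] at h4
    linarith
  linarith

lemma ball_sq (c : ℂ) (r : ℝ) : Metric.ball c r ⊆ Sq c r := by
  intro z hz
  rw [Metric.mem_ball, Complex.dist_eq] at hz
  constructor
  · have := Complex.abs_re_le_norm (z - c)
    rw [Complex.sub_re] at this
    linarith
  · have := Complex.abs_im_le_norm (z - c)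
    rw [Complex.sub_im] at this
    linarith

/-- one coordinate -/
lemma one_cov {r : ℝ} (hr : 0 < r) (x : ℝ) : ∃ m : ℤ, |x - 2 * r * m| ≤ r := by
  refine ⟨⌊x / (2 * r) + 1 / 2⌋, ?_⟩
  have h1 := Int.floor_le (x / (2 * r) + 1 / 2)
  have h2 := Int.lt_floor_add_one (x / (2 * r) + 1 / 2)
  have h3 : x = 2 * r * (x / (2 * r)) := by field_simp
  generalize (⌊x / (2 * r) + 1 / 2⌋ : ℤ) = m at *
  rw [abs_le]
  constructor
  · have : 2 * r * (m : ℝ) ≤ 2 * r * (x / (2 * r) + 1 / 2) :=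
      mul_le_mul_of_nonneg_left h1 (by positivity)
    nlinarith [this, h3]
  · have : 2 * r * (x / (2 * r) + 1 / 2) ≤ 2 * r * ((m : ℝ) + 1) :=
      mul_le_mul_of_nonneg_left h2.le (by positivity)
    nlinarith [this, h3]

lemma one_num {r : ℝ} (hr : 0 < r) {x : ℝ} {m : ℤ} (h : |x - 2 * r * m| ≤ r) :
    m = ⌊x / (2 * r) + 1 / 2⌋ - 1 ∨ m = ⌊x / (2 * r) + 1 / 2⌋ := by
  obtain ⟨h1, h2⟩ := abs_le.mp h
  have h3 : (m : ℝ) ≤ x / (2 * r) + 1 / 2 := by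
    rw [← sub_le_iff_le_add, le_div_iff₀ (by positivity)]
    nlinarith
  have h4 : x / (2 * r) + 1 / 2 ≤ (m : ℝ) + 1 := by
    have : x / (2 * r) ≤ (m : ℝ) + 1 / 2 := by
      rw [div_le_iff₀ (by positivity)]
      nlinarith
    linarith
  have h5 : m ≤ ⌊x / (2 * r) + 1 / 2⌋ := Int.le_floor.mpr h3
  have h6 : ⌊x / (2 * r) + 1 / 2⌋ ≤ m + 1 := by
    have h7 := Int.floor_le (x / (2 * r) + 1 / 2)
    have : ((⌊x / (2 * r) + 1 / 2⌋ : ℤ) : ℝ) ≤ ((m + 1 : ℤ) : ℝ) := by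
      push_cast
      linarith
    exact_mod_cast this
  omega

/-- at most four squares contain a point -/
lemma four {r : ℝ} (hr : 0 < r) (J : Finset (ℤ × ℤ)) (z : ℂ) [DecidablePred fun p => z ∈ Sq (cen r p) r] :
    (J.filter (fun p => z ∈ Sq (cen r p) r)).card ≤ 4 := by
  classical
  have h1 : J.filter (fun p => z ∈ Sq (cen r p) r) ⊆
      ({⌊z.re / (2 * r) + 1 / 2⌋ - 1, ⌊z.re / (2 * r) + 1 / 2⌋} : Finset ℤ) ×ˢ
      ({⌊z.im / (2 * r) + 1 / 2⌋ - 1, ⌊z.im / (2 * r) + 1 / 2⌋} : Finset ℤ) := by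
    intro p hp
    rw [Finset.mem_filter] at hp
    have h2 := one_num hr hp.2.1
    have h3 := one_num hr hp.2.2
    simp only [Finset.mem_product, Finset.mem_insert, Finset.mem_singleton]
    exact ⟨h2, h3⟩
  refine (Finset.card_le_card h1).trans ?_
  rw [Finset.card_product]
  have h2 : ∀ a b : ℤ, ({a, b} : Finset ℤ).card ≤ 2 := fun a b => Finset.card_le_two
  calc _ ≤ 2 * 2 := Nat.mul_le_mul (h2 _ _) (h2 _ _)
    _ = 4 := rfl

lemma ball_disj {r : ℝ} (hr : 0 < r) {p q : ℤ × ℤ} (hpq : p ≠ q) :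
    Disjoint (Metric.ball (cen r p) r) (Metric.ball (cen r q) r) := by
  apply Metric.ball_disjoint_ball
  rw [Complex.dist_eq]
  have key : ∀ a b : ℤ, a ≠ b → r + r ≤ |2 * r * (a : ℝ) - 2 * r * b| := by
    intro a b hab
    have h1 : (1 : ℝ) ≤ |(a : ℝ) - b| := by
      have : (1 : ℤ) ≤ |a - b| := Int.one_le_abs (sub_ne_zero.mpr hab)
      exact_mod_cast this
    rw [← mul_sub, abs_mul, abs_of_pos (by positivity : 0 < 2 * r)]
    nlinarith
  by_cases h : p.1 = q.1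
  · have h2 : p.2 ≠ q.2 := fun h2 => hpq (Prod.ext h h2)
    refine (key _ _ h2).trans ?_
    have := Complex.abs_im_le_norm (cen r p - cen r q)
    rwa [Complex.sub_im] at this
  · refine (key _ _ h).trans ?_
    have := Complex.abs_re_le_norm (cen r p - cen r q)
    rwa [Complex.sub_re] at this

/-- the grid -/
lemma grid {S : Set ℂ} (hS : IsCompact S) {s : ℝ} (hs : 0 < s) {V : ℝ} (hV0 : 0 ≤ V)
    (hV : volume (Metric.cthickening s S) ≤ ENNReal.ofReal V) :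
    ∃ (r : ℝ) (J : Finset (ℤ × ℤ)), 0 < r ∧ (∀ z ∈ S, ∃ p ∈ J, z ∈ Sq (cen r p) r) ∧
      (∀ p ∈ J, Sq (cen r p) r ⊆ Metric.cthickening s S) ∧ (J.card : ℝ) * (3 * r ^ 2) ≤ V := by
  classical
  obtain ⟨r, hr⟩ : ∃ r, r = s / 4 := ⟨_, rfl⟩
  have hr0 : 0 < r := by rw [hr]; linarith
  obtain ⟨B, hB⟩ := hS.isBounded.exists_norm_le
  obtain ⟨L, hL⟩ := exists_int_gt ((B + r) / (2 * r))
  obtain ⟨J, hJ⟩ : ∃ J : Finset (ℤ × ℤ), J = (Finset.Icc (-L) L ×ˢ Finset.Icc (-L) L).filter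
    (fun p => (Sq (cen r p) r ∩ S).Nonempty) := ⟨_, rfl⟩
  have hJS : ∀ p ∈ J, Sq (cen r p) r ⊆ Metric.cthickening s S := by
    intro p hp z hz
    rw [hJ, Finset.mem_filter] at hp
    obtain ⟨w, hw, hwS⟩ := hp.2
    refine Metric.mem_cthickening_of_dist_le z w s S hwS ?_
    rw [Complex.dist_eq]
    refine (sq_norm hz hw).trans ?_
    rw [hr]
    linarith
  refine ⟨r, J, hr0, ?_, hJS, ?_⟩
  · intro z hz
    obtain ⟨m, hm⟩ := one_cov hr0 z.re
    obtain ⟨n, hn⟩ := one_cov hr0 z.im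
    have hzB := hB z hz
    have key : ∀ (x : ℝ) (k : ℤ), |x| ≤ B → |x - 2 * r * k| ≤ r → k ∈ Finset.Icc (-L) L := by
      intro x k hx hk
      rw [div_lt_iff₀ (by positivity)] at hL
      obtain ⟨a1, a2⟩ := abs_le.mp hx
      obtain ⟨a3, a4⟩ := abs_le.mp hk
      have h1 : 2 * r * (k : ℝ) < 2 * r * L := by nlinarith
      have h2 : 2 * r * (-(L : ℝ)) < 2 * r * k := by nlinarith
      have h3 : (k : ℝ) < L := lt_of_mul_lt_mul_left h1 (by positivity)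
      have h4 : -(L : ℝ) < k := lt_of_mul_lt_mul_left h2 (by positivity)
      rw [Finset.mem_Icc]
      constructor
      · have : ((-L : ℤ) : ℝ) ≤ k := by push_cast; exact h4.le
        exact_mod_cast this
      · have : ((k : ℤ) : ℝ) ≤ L := h3.le
        exact_mod_cast this
    refine ⟨(m, n), ?_, hm, hn⟩
    rw [hJ, Finset.mem_filter, Finset.mem_product]
    refine ⟨⟨key _ _ ((Complex.abs_re_le_norm z).trans hzB) hm,
      key _ _ ((Complex.abs_im_le_norm z).trans hzB) hn⟩, z, ⟨hm, hn⟩, hz⟩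
  · have h1 : volume (⋃ p ∈ J, Metric.ball (cen r p) r) ≤ ENNReal.ofReal V := by
      refine (measure_mono ?_).trans hV
      intro z hz
      rw [mem_iUnion₂] at hz
      obtain ⟨p, hp, hz⟩ := hz
      exact hJS p hp (ball_sq _ _ hz)
    rw [measure_biUnion_finset (fun p _ q _ hpq => ball_disj hr0 hpq)
      (fun p _ => measurableSet_ball)] at h1
    simp only [Complex.volume_ball] at h1
    rw [Finset.sum_const, nsmul_eq_mul] at h1
    have h2 : ENNReal.ofReal r ^ 2 * (NNReal.pi : ENNReal) = ENNReal.ofReal (r ^ 2 * π) := by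
      rw [ENNReal.ofReal_mul (by positivity), ENNReal.ofReal_pow hr0.le]
      congr 1
      rw [ENNReal.ofReal, ← NNReal.coe_real_pi, Real.toNNReal_coe]
    rw [h2, ← ENNReal.ofReal_natCast, ← ENNReal.ofReal_mul (by positivity),
      ENNReal.ofReal_le_ofReal_iff hV0] at h1
    refine le_trans ?_ h1
    refine mul_le_mul_of_nonneg_left ?_ (by positivity)
    nlinarith [Real.pi_gt_three, sq_nonneg r]

/-! ### Sums of integrals -/

/-- the squares cover -/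
lemma cov_le {α ι : Type} [MeasurableSpace α] {ν : Measure α} (J : Finset ι) (Q : ι → Set α)
    {S K : Set α} (hS : MeasurableSet S)
    (hSK : S ⊆ K) (hQ : ∀ p ∈ J, MeasurableSet (Q p)) (hQK : ∀ p ∈ J, Q p ⊆ K)
    (hcov : ∀ z ∈ S, ∃ p ∈ J, z ∈ Q p) {g : α → ℝ} (hg : IntegrableOn g K ν) (hg0 : ∀ z, 0 ≤ g z) :
    ∫ z in S, g z ∂ν ≤ ∑ p ∈ J, ∫ z in Q p, g z ∂ν := by
  classical
  have h1 : ∑ p ∈ J, ∫ z in Q p, g z ∂ν = ∑ p ∈ J, ∫ z in K, (Q p).indicator g z ∂ν := by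
    refine Finset.sum_congr rfl fun p hp => ?_
    rw [setIntegral_indicator (hQ p hp), inter_eq_self_of_subset_right (hQK p hp)]
  rw [h1, ← integral_finset_sum _ (fun p hp => hg.indicator (hQ p hp))]
  have h2 : ∫ z in S, g z ∂ν = ∫ z in K, S.indicator g z ∂ν := by
    rw [setIntegral_indicator hS, inter_eq_self_of_subset_right hSK]
  rw [h2]
  refine integral_mono (hg.indicator hS)
    (integrable_finset_sum _ fun p hp => hg.indicator (hQ p hp)) fun z => ?_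
  show S.indicator g z ≤ ∑ p ∈ J, (Q p).indicator g z
  have h3 : ∀ p ∈ J, 0 ≤ (Q p).indicator g z := fun p _ => indicator_nonneg (fun z _ => hg0 z) z
  by_cases h : z ∈ S
  · rw [indicator_of_mem h]
    obtain ⟨p, hp, hz⟩ := hcov z h
    calc g z = (Q p).indicator g z := (indicator_of_mem hz g).symm
      _ ≤ _ := Finset.single_le_sum h3 hp
  · rw [indicator_of_notMem h]
    exact Finset.sum_nonneg h3

/-- bounded overlap -/
lemma ovl_le {r : ℝ} (hr : 0 < r) (J : Finset (ℤ × ℤ)) {K : Set ℂ}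
    (hQK : ∀ p ∈ J, Sq (cen r p) r ⊆ K) {g : ℂ → ℝ} (hg : IntegrableOn g K)
    (hg0 : ∀ z, 0 ≤ g z) : ∑ p ∈ J, ∫ z in Sq (cen r p) r, g z ≤ 4 * ∫ z in K, g z := by
  classical
  have hm : ∀ p ∈ J, MeasurableSet (Sq (cen r p) r) := fun p _ => (sq_closed _ _).measurableSet
  have h1 : ∑ p ∈ J, ∫ z in Sq (cen r p) r, g z =
      ∑ p ∈ J, ∫ z in K, (Sq (cen r p) r).indicator g z := by
    refine Finset.sum_congr rfl fun p hp => ?_
    rw [setIntegral_indicator (hm p hp), inter_eq_self_of_subset_right (hQK p hp)]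
  rw [h1, ← integral_finset_sum _ (fun p hp => hg.indicator (hm p hp)), ← integral_const_mul]
  refine integral_mono (integrable_finset_sum _ fun p hp => hg.indicator (hm p hp))
    (hg.const_mul 4) fun z => ?_
  show ∑ p ∈ J, (Sq (cen r p) r).indicator g z ≤ 4 * g z
  have h2 : ∑ p ∈ J, (Sq (cen r p) r).indicator g z =
      ((J.filter (fun p => z ∈ Sq (cen r p) r)).card : ℝ) * g z := by
    rw [Finset.card_filter]
    push_cast
    rw [Finset.sum_mul]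
    refine Finset.sum_congr rfl fun p _ => ?_
    by_cases h : z ∈ Sq (cen r p) r
    · rw [if_pos h, indicator_of_mem h, one_mul]
    · rw [if_neg h, indicator_of_notMem h, zero_mul]
  rw [h2]
  refine mul_le_mul_of_nonneg_right ?_ (hg0 z)
  exact_mod_cast four hr J z


/-! ### One chart -/

section chart

variable {M : Type} [MetricSpace M] [CompactSpace M] [MeasurableSpace M] [BorelSpace M]
  {μ : Measure M} {D : Data M}

lemma phi_psi (hD : D.IsSurf μ) (i : Fin D.N) :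
    ∀ z ∈ D.T i, D.ψ i z ∈ D.U i ∧ D.φ i (D.ψ i z) = z := by
  rintro z ⟨x, hx, rfl⟩
  rw [hD.left i x hx]
  exact ⟨hx, rfl⟩

lemma bounds (hD : D.IsSurf μ) (i : Fin D.N) {K : Set ℂ} (hK : IsCompact K) (hKT : K ⊆ D.T i) :
    ∃ d0 d1 a1 : ℝ, 0 < d0 ∧ 0 < d1 ∧ 0 < a1 ∧ ∀ z ∈ K, d0 ≤ |(D.A i z).det| ∧
      |(D.A i z).det| ≤ d1 ∧ ‖D.A i z‖ ≤ a1 := by
  have hdet : ContinuousOn (fun z => |(D.A i z).det|) K :=
    (ContinuousLinearMap.continuous_det.comp_continuousOn ((hD.contA i).mono hKT)).abs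
  have hne : ∀ z ∈ K, |(D.A i z).det| ≠ 0 := fun z hz => (abs_pos.2 (hD.det i z (hKT hz))).ne'
  obtain ⟨c0, hc0⟩ := hK.exists_bound_of_continuousOn (hdet.inv₀ hne)
  obtain ⟨c1, hc1⟩ := hK.exists_bound_of_continuousOn hdet
  obtain ⟨c2, hc2⟩ := hK.exists_bound_of_continuousOn ((hD.contA i).mono hKT)
  refine ⟨(max c0 1)⁻¹, max c1 1, max c2 1, by positivity, by positivity, by positivity,
    fun z hz => ⟨?_, ?_, ?_⟩⟩
  · have h1 := (hc0 z hz).trans (le_max_left c0 1)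
    have h2 : 0 < |(D.A i z).det| := abs_pos.2 (hD.det i z (hKT hz))
    have h3 : ‖(|(D.A i z).det|)⁻¹‖ ≤ max c0 1 := h1
    rw [Real.norm_eq_abs, abs_of_pos (inv_pos.mpr h2)] at h3
    exact inv_le_of_inv_le₀ h2 h3
  · have h1 := (hc1 z hz).trans (le_max_left c1 1)
    rwa [Real.norm_eq_abs, abs_abs] at h1
  · exact (hc2 z hz).trans (le_max_left c2 1)

/-- the compact set in the surface -/
lemma img (hD : D.IsSurf μ) (i : Fin D.N) {K : Set ℂ} (hK : IsCompact K) (hKT : K ⊆ D.T i) :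
    IsCompact (D.ψ i '' K) ∧ D.ψ i '' K ⊆ D.U i ∧ D.φ i '' (D.ψ i '' K) = K := by
  refine ⟨hK.image_of_continuousOn ((hD.contψ i).mono hKT), ?_, ?_⟩
  · rintro x ⟨z, hz, rfl⟩
    exact (phi_psi hD i z (hKT hz)).1
  · apply Subset.antisymm
    · rintro z ⟨x, ⟨y, hy, rfl⟩, rfl⟩
      rw [(phi_psi hD i y (hKT hy)).2]
      exact hy
    · intro z hz
      exact ⟨D.ψ i z, ⟨z, hz, rfl⟩, (phi_psi hD i z (hKT hz)).2⟩

/-- the energy in a chart -/
lemma trG (hInt : StInt) (hGr : StGr) (hFin : StFin) (hD : D.IsSurf μ) (i : Fin D.N) {K : Set ℂ}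
    (hK : IsCompact K) (hKT : K ⊆ D.T i) {d0 d1 a1 : ℝ} (hd0 : 0 < d0)
    (hb : ∀ z ∈ K, d0 ≤ |(D.A i z).det| ∧ |(D.A i z).det| ≤ d1 ∧ ‖D.A i z‖ ≤ a1)
    {F : M → ℝ} (hF : D.C1 F) :
    ∫ z in K, ‖fderiv ℝ (fun z => F (D.ψ i z)) z‖ ^ 2 ≤
      a1 ^ 2 / d0 * ∫ x, ‖D.gr F x‖ ^ 2 ∂μ := by
  obtain ⟨hfin, -⟩ := hFin M μ D hD
  obtain ⟨hG1, hG2, -⟩ := hGr M μ D hD
  obtain ⟨hKcc, hKcU, hKφ⟩ := img hD i hK hKT
  have hKm : MeasurableSet K := hK.measurableSet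
  have hI := (hInt M μ D hD i).2 (D.ψ i '' K) hKcc.measurableSet hKcU
  rw [hKφ] at hI
  obtain ⟨hFc, hgm, G, hGb⟩ := hG1 F hF
  have hfC : ContDiffOn ℝ 1 (fun z => F (D.ψ i z)) (D.T i) := hF i
  have hf1 : ContinuousOn (fderiv ℝ (fun z => F (D.ψ i z))) K :=
    (hfC.continuousOn_fderiv_of_isOpen (hD.openT i) le_rfl).mono hKT
  have hg2 : Integrable (fun x => ‖D.gr F x‖ ^ 2) μ := by
    refine Integrable.of_bound (hgm.norm.pow_const 2).aestronglyMeasurable (G ^ 2)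
      (Eventually.of_forall fun x => ?_)
    rw [norm_pow, norm_norm]
    exact pow_le_pow_left₀ (norm_nonneg _) (hGb x) 2
  have hdet : ContinuousOn (fun z => |(D.A i z).det|) K :=
    (ContinuousLinearMap.continuous_det.comp_continuousOn ((hD.contA i).mono hKT)).abs
  have hpt : ∀ z ∈ K, ‖fderiv ℝ (fun z => F (D.ψ i z)) z‖ ^ 2 ≤
      a1 ^ 2 / d0 * (‖D.gr F (D.ψ i z)‖ ^ 2 * |(D.A i z).det|) := by
    intro z hz
    have e1 := hG2 F F hF hF i (D.ψ i z) (phi_psi hD i z (hKT hz)).1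
    rw [real_inner_self_eq_norm_sq, real_inner_self_eq_norm_sq] at e1
    have e2 : D.gc i F (D.ψ i z) = grd (D.A i z) (fderiv ℝ (fun z => F (D.ψ i z)) z) := by
      unfold Data.gc Data.dc
      rw [(phi_psi hD i z (hKT hz)).2]
    have e3 := grd_le (D.A i z) (hD.det i z (hKT hz)) (fderiv ℝ (fun z => F (D.ψ i z)) z)
    rw [← e2] at e3
    have e4 : ‖fderiv ℝ (fun z => F (D.ψ i z)) z‖ ^ 2 ≤ (‖D.gc i F (D.ψ i z)‖ * a1) ^ 2 := by
      refine pow_le_pow_left₀ (norm_nonneg _) (e3.trans ?_) 2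
      exact mul_le_mul_of_nonneg_left (hb z hz).2.2 (norm_nonneg _)
    rw [mul_pow, ← e1] at e4
    refine e4.trans ?_
    have e5 : ‖D.gr F (D.ψ i z)‖ ^ 2 * a1 ^ 2 =
        a1 ^ 2 / d0 * (‖D.gr F (D.ψ i z)‖ ^ 2 * d0) := by
      field_simp
    rw [e5]
    refine mul_le_mul_of_nonneg_left ?_ (by positivity)
    exact mul_le_mul_of_nonneg_left (hb z hz).1 (sq_nonneg _)
  have hψc : ContinuousOn (D.ψ i) K := (hD.contψ i).mono hKT
  have igd : IntegrableOn (fun z => ‖D.gr F (D.ψ i z)‖ ^ 2 * |(D.A i z).det|) K := by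
    have : IsFiniteMeasure ((volume : Measure ℂ).restrict K) :=
      ⟨by rw [Measure.restrict_apply_univ]; exact hK.measure_lt_top⟩
    have m1 : AEMeasurable (fun z => ‖D.gr F (D.ψ i z)‖ ^ 2)
        ((volume : Measure ℂ).restrict K) :=
      (hgm.norm.pow_const 2).comp_aemeasurable (hψc.aemeasurable hKm)
    have m2 : AEMeasurable (fun z => |(D.A i z).det|)
        ((volume : Measure ℂ).restrict K) := hdet.aemeasurable hKm
    refine Integrable.of_bound (m1.mul m2).aestronglyMeasurable (G ^ 2 * d1) ?_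
    refine (ae_restrict_iff' hKm).2 (Eventually.of_forall fun z hz => ?_)
    rw [norm_mul, norm_pow, norm_norm, Real.norm_eq_abs, abs_abs]
    exact mul_le_mul (pow_le_pow_left₀ (norm_nonneg _) (hGb _) 2) (hb z hz).2.1 (abs_nonneg _)
      (sq_nonneg _)
  have e1 : ∫ z in K, ‖fderiv ℝ (fun z => F (D.ψ i z)) z‖ ^ 2 ≤
      ∫ z in K, a1 ^ 2 / d0 * (‖D.gr F (D.ψ i z)‖ ^ 2 * |(D.A i z).det|) :=
    setIntegral_mono_on ((hf1.norm.pow 2).integrableOn_compact hK)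
      (igd.const_mul _) hKm hpt
  rw [integral_const_mul] at e1
  have e2 : ∫ x in D.ψ i '' K, ‖D.gr F x‖ ^ 2 ∂μ =
      ∫ z in K, ‖D.gr F (D.ψ i z)‖ ^ 2 * |(D.A i z).det| :=
    hI (fun x => ‖D.gr F x‖ ^ 2) (hgm.norm.pow_const 2).aestronglyMeasurable
  have e3 : ∫ x in D.ψ i '' K, ‖D.gr F x‖ ^ 2 ∂μ ≤ ∫ x, ‖D.gr F x‖ ^ 2 ∂μ :=
    setIntegral_le_integral hg2 (Eventually.of_forall fun x => sq_nonneg _)
  rw [← e2] at e1
  exact e1.trans (mul_le_mul_of_nonneg_left e3 (by positivity))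

/-- the transfer of the functionals -/
lemma trK (hInt : StInt) (hGr : StGr) (hFin : StFin) (hD : D.IsSurf μ) (i : Fin D.N) {K : Set ℂ}
    (hK : IsCompact K) (hKT : K ⊆ D.T i) {d0 d1 a1 : ℝ} (hd0 : 0 < d0)
    (hb : ∀ z ∈ K, d0 ≤ |(D.A i z).det| ∧ |(D.A i z).det| ≤ d1 ∧ ‖D.A i z‖ ≤ a1)
    (κ : ℂ → ℝ) (hκm : Measurable κ) (hκb : ∃ C, ∀ z, |κ z| ≤ C) :
    ∃ k : M → ℝ, MemLp k 2 μ ∧ ∀ F, D.C1 F → ∫ x, F x * k x ∂μ =
      ∫ z in K, F (D.ψ i z) * κ z := by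
  obtain ⟨hfin, -⟩ := hFin M μ D hD
  obtain ⟨hG1, hG2, -⟩ := hGr M μ D hD
  obtain ⟨hKcc, hKcU, hKφ⟩ := img hD i hK hKT
  have hKm : MeasurableSet K := hK.measurableSet
  have hKcm : MeasurableSet (D.ψ i '' K) := hKcc.measurableSet
  have hI := (hInt M μ D hD i).2 (D.ψ i '' K) hKcm hKcU
  rw [hKφ] at hI
  have hdet : ContinuousOn (fun z => |(D.A i z).det|) K :=
    (ContinuousLinearMap.continuous_det.comp_continuousOn ((hD.contA i).mono hKT)).abs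
  obtain ⟨k, hk⟩ : ∃ k : M → ℝ, k = (D.ψ i '' K).indicator fun x =>
      κ (D.φ i x) / |(D.A i (D.φ i x)).det| := ⟨_, rfl⟩
  have hkx : ∀ z ∈ K, k (D.ψ i z) = κ z / |(D.A i z).det| := by
    intro z hz
    rw [hk, indicator_of_mem (mem_image_of_mem _ hz), (phi_psi hD i z (hKT hz)).2]
  have hk0 : ∀ x ∉ D.ψ i '' K, k x = 0 := by
    intro x hx
    rw [hk, indicator_of_notMem hx]
  have hφK : ∀ x ∈ D.ψ i '' K, D.φ i x ∈ K := fun x hx => by
    have : D.φ i x ∈ D.φ i '' (D.ψ i '' K) := ⟨x, hx, rfl⟩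
    rwa [hKφ] at this
  have hφc : ContinuousOn (D.φ i) (D.ψ i '' K) := (hD.contφ i).mono hKcU
  have hkm : AEStronglyMeasurable k μ := by
    rw [hk, aestronglyMeasurable_indicator_iff hKcm]
    have e1 : AEMeasurable (D.φ i) (μ.restrict (D.ψ i '' K)) := hφc.aemeasurable hKcm
    have e2 : AEMeasurable (fun x => κ (D.φ i x)) (μ.restrict (D.ψ i '' K)) :=
      hκm.comp_aemeasurable e1
    have e3 : AEMeasurable (fun x => |(D.A i (D.φ i x)).det|) (μ.restrict (D.ψ i '' K)) :=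
      (hdet.comp hφc fun x hx => hφK x hx).aemeasurable hKcm
    exact (e2.div e3).aestronglyMeasurable
  obtain ⟨C, hC⟩ := hκb
  have hC0 : 0 ≤ C := (abs_nonneg _).trans (hC 0)
  have hkb : ∀ x, ‖k x‖ ≤ C / d0 := by
    intro x
    by_cases hx : x ∈ D.ψ i '' K
    · rw [hk, indicator_of_mem hx, norm_div, Real.norm_eq_abs, Real.norm_eq_abs, abs_abs]
      exact div_le_div₀ hC0 (hC _) hd0 (hb _ (hφK x hx)).1
    · rw [hk0 x hx, norm_zero]
      exact div_nonneg hC0 hd0.le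
  refine ⟨k, MemLp.of_bound hkm (C / d0) (Eventually.of_forall hkb), fun F hF => ?_⟩
  obtain ⟨hFc, -, -⟩ := hG1 F hF
  have e1 : ∫ x, F x * k x ∂μ = ∫ x in D.ψ i '' K, F x * k x ∂μ := by
    rw [setIntegral_eq_integral_of_forall_compl_eq_zero]
    intro x hx
    rw [hk0 x hx, mul_zero]
  have e2 : ∫ x in D.ψ i '' K, F x * k x ∂μ =
      ∫ z in K, (F (D.ψ i z) * k (D.ψ i z)) * |(D.A i z).det| :=
    hI (fun x => F x * k x) (hFc.aestronglyMeasurable.mul hkm)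
  rw [e1, e2]
  refine setIntegral_congr_fun hKm fun z hz => ?_
  show F (D.ψ i z) * k (D.ψ i z) * |(D.A i z).det| = F (D.ψ i z) * κ z
  rw [hkx z hz]
  have e3 : |(D.A i z).det| ≠ 0 := (hd0.trans_le (hb z hz).1).ne'
  field_simp

/-- the left-hand side in a chart -/
lemma trB (hInt : StInt) (hGr : StGr) (hD : D.IsSurf μ) (i : Fin D.N) {B : Set M}
    (hB : IsCompact B) (hBU : B ⊆ D.U i) {d1 : ℝ}
    (hb : ∀ z ∈ D.φ i '' B, |(D.A i z).det| ≤ d1) {F : M → ℝ} (hF : D.C1 F) :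
    ∫ x in B, (F x) ^ 2 ∂μ ≤ d1 * ∫ z in D.φ i '' B, (F (D.ψ i z)) ^ 2 := by
  obtain ⟨hG1, hG2, -⟩ := hGr M μ D hD
  obtain ⟨hFc, -, -⟩ := hG1 F hF
  have hS : IsCompact (D.φ i '' B) := hB.image_of_continuousOn ((hD.contφ i).mono hBU)
  have hST : D.φ i '' B ⊆ D.T i := image_mono hBU
  have hI := (hInt M μ D hD i).2 B hB.measurableSet hBU (fun x => (F x) ^ 2)
    (hFc.pow 2).aestronglyMeasurable
  have hfc : ContinuousOn (fun z => F (D.ψ i z)) (D.φ i '' B) := (hF i).continuousOn.mono hST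
  have hdet : ContinuousOn (fun z => |(D.A i z).det|) (D.φ i '' B) :=
    (ContinuousLinearMap.continuous_det.comp_continuousOn ((hD.contA i).mono hST)).abs
  rw [hI, ← integral_const_mul]
  refine setIntegral_mono_on (((hfc.pow 2).mul hdet).integrableOn_compact hS)
    (((hfc.pow 2).integrableOn_compact hS).const_mul d1) hS.measurableSet fun z hz => ?_
  rw [mul_comm d1]
  exact mul_le_mul_of_nonneg_left (hb z hz) (sq_nonneg _)

end chart

section main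

variable {M : Type} [MetricSpace M] [CompactSpace M] [MeasurableSpace M] [BorelSpace M]
  {μ : Measure M} {D : Data M}

/-- the volume in the chart -/
lemma volS (hD : D.IsSurf μ) (i : Fin D.N) {B : Set M} (hB : IsCompact B) (hBU : B ⊆ D.U i)
    {d0 : ℝ} (hd0 : 0 < d0) (hb : ∀ z ∈ D.φ i '' B, d0 ≤ |(D.A i z).det|) {δ : ℝ}
    (hμ : μ B < ENNReal.ofReal δ) : volume (D.φ i '' B) < ENNReal.ofReal (δ / d0) := by
  have hS : IsCompact (D.φ i '' B) := hB.image_of_continuousOn ((hD.contφ i).mono hBU)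
  have h1 := hD.area i B hBU hB.measurableSet
  have h2 : ENNReal.ofReal d0 * volume (D.φ i '' B) ≤ μ B := by
    rw [h1, ← setLIntegral_const]
    exact setLIntegral_mono' hS.measurableSet fun z hz => ENNReal.ofReal_le_ofReal (hb z hz)
  have h3 := h2.trans_lt hμ
  rw [ENNReal.ofReal_div_of_pos hd0]
  rw [ENNReal.lt_div_iff_mul_lt (Or.inl (ENNReal.ofReal_pos.mpr hd0).ne')
    (Or.inl ENNReal.ofReal_ne_top), mul_comm]
  exact h3

/-- the choice of the number of subdivisions -/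
lemma choice_m {r B Λ : ℝ} (hr : 0 < r) (hB : 0 < B) (hΛ : 1 / (r ^ 2 * B) ≤ Λ) :
    ∃ m : ℕ, 0 < m ∧ r ^ 2 * B * Λ ≤ (m : ℝ) ^ 2 ∧ (m : ℝ) ^ 2 ≤ 4 * (r ^ 2 * B * Λ) := by
  have h1 : 1 ≤ r ^ 2 * B * Λ := by
    rw [div_le_iff₀ (by positivity)] at hΛ
    linarith
  obtain ⟨x, hx⟩ : ∃ x, x = √(r ^ 2 * B * Λ) := ⟨_, rfl⟩
  have hx2 : x ^ 2 = r ^ 2 * B * Λ := by rw [hx]; exact Real.sq_sqrt (by linarith)
  have hx1 : 1 ≤ x := by rw [hx]; exact Real.one_le_sqrt.mpr h1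
  refine ⟨⌈x⌉₊, Nat.ceil_pos.mpr (by linarith), ?_, ?_⟩
  · rw [← hx2]
    exact pow_le_pow_left₀ (by linarith) (Nat.le_ceil x) 2
  · have h2 : (⌈x⌉₊ : ℝ) < x + 1 := Nat.ceil_lt_add_one (by linarith)
    have h3 : (⌈x⌉₊ : ℝ) ≤ 2 * x := by linarith
    calc (⌈x⌉₊ : ℝ) ^ 2 ≤ (2 * x) ^ 2 := pow_le_pow_left₀ (Nat.cast_nonneg _) h3 2
      _ = 4 * (r ^ 2 * B * Λ) := by rw [mul_pow, hx2]; ring

/-- one chart -/
lemma chartLem (hInt : StInt) (hGr : StGr) (hFin : StFin) (hSub : StSub) (hD : D.IsSurf μ)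
    (i : Fin D.N) {Cc : Set M} (hCc : IsCompact Cc) (hCU : Cc ⊆ D.U i) :
    ∃ C : ℝ, 0 < C ∧ ∀ R : Set M, IsClosed R → ∀ δ : ℝ, 0 < δ → μ R < ENNReal.ofReal δ →
      ∃ Λ₀ : ℝ, 0 < Λ₀ ∧ ∀ Λ : ℝ, Λ₀ ≤ Λ → ∃ (N : ℕ) (κ : Fin N → M → ℝ),
        (N : ℝ) ≤ C * δ * Λ ∧ (∀ j, MemLp (κ j) 2 μ) ∧
        ∀ F, D.C1 F → ∫ x in R ∩ Cc, (F x) ^ 2 ∂μ ≤
          ((D.N : ℝ) + 1)⁻¹ * Λ⁻¹ * (∫ x, ‖D.gr F x‖ ^ 2 ∂μ) +
            ∑ j, (∫ x, F x * κ j x ∂μ) ^ 2 := by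
  have hK0 : IsCompact (D.φ i '' Cc) := hCc.image_of_continuousOn ((hD.contφ i).mono hCU)
  have hK0T : D.φ i '' Cc ⊆ D.T i := image_mono hCU
  obtain ⟨ρ, hρ, hρT⟩ := hK0.exists_cthickening_subset_open (hD.openT i) hK0T
  obtain ⟨K, hKdef⟩ : ∃ K, K = Metric.cthickening ρ (D.φ i '' Cc) := ⟨_, rfl⟩
  have hK : IsCompact K := by rw [hKdef]; exact hK0.cthickening
  have hKT : K ⊆ D.T i := by rw [hKdef]; exact hρT
  obtain ⟨d0, d1, a1, hd0, hd1, ha1, hb⟩ := bounds hD i hK hKT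
  obtain ⟨n', hn'⟩ : ∃ n' : ℝ, n' = (D.N : ℝ) + 1 := ⟨_, rfl⟩
  have hn'0 : 0 < n' := by rw [hn']; positivity
  obtain ⟨B, hBdef⟩ : ∃ B : ℝ, B = 16 * d1 * a1 ^ 2 / d0 * n' := ⟨_, rfl⟩
  have hB : 0 < B := by rw [hBdef]; positivity
  refine ⟨2 * B / d0, by positivity, fun R hR δ hδ hμ => ?_⟩
  have hRC : IsCompact (R ∩ Cc) := hCc.inter_left hR
  have hRCU : R ∩ Cc ⊆ D.U i := inter_subset_right.trans hCU
  obtain ⟨S, hSdef⟩ : ∃ S, S = D.φ i '' (R ∩ Cc) := ⟨_, rfl⟩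
  have hS : IsCompact S := by
    rw [hSdef]; exact hRC.image_of_continuousOn ((hD.contφ i).mono hRCU)
  have hSK0 : S ⊆ D.φ i '' Cc := by rw [hSdef]; exact image_mono inter_subset_right
  have hSK : S ⊆ K := by
    rw [hKdef]; exact hSK0.trans (Metric.self_subset_cthickening _)
  have hvS : volume S < ENNReal.ofReal (δ / d0) := by
    rw [hSdef]
    refine volS hD i hRC hRCU hd0 (fun z hz => (hb z ?_).1)
      ((measure_mono inter_subset_left).trans_lt hμ)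
    apply hSK
    rw [hSdef]
    exact hz
  have htend := tendsto_measure_cthickening_of_isCompact (μ := (volume : Measure ℂ)) hS
  obtain ⟨s0, hs0, hs1⟩ := Metric.eventually_nhds_iff.mp (htend.eventually_lt_const hvS)
  obtain ⟨s, hs, hss0, hsρ⟩ : ∃ s : ℝ, 0 < s ∧ s < s0 ∧ s ≤ ρ := by
    refine ⟨min (s0 / 2) ρ, by positivity, ?_, min_le_right _ _⟩
    exact (min_le_left _ _).trans_lt (by linarith)
  have hvs : volume (Metric.cthickening s S) ≤ ENNReal.ofReal (δ / d0) := by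
    refine (hs1 ?_).le
    rw [dist_zero_right, Real.norm_eq_abs, abs_of_pos hs]
    exact hss0
  have hthK : Metric.cthickening s S ⊆ K := by
    rw [hKdef]
    exact (Metric.cthickening_mono hsρ _).trans (Metric.cthickening_subset_of_subset _ hSK0)
  obtain ⟨r, J, hr, hcov, hJS, hcard⟩ := grid hS hs (by positivity) hvs
  have hJK : ∀ p ∈ J, Sq (cen r p) r ⊆ K := fun p hp => (hJS p hp).trans hthK
  refine ⟨1 / (r ^ 2 * B), by positivity, fun Λ hΛ => ?_⟩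
  have hΛ0 : 0 < Λ := lt_of_lt_of_le (by positivity) hΛ
  obtain ⟨m, hm, hm1, hm2⟩ := choice_m hr hB hΛ
  choose κ hκm hκb hκz hκ using fun p : ℤ × ℤ => hSub (cen r p) r m hr hm
  choose k hkm hk using fun q : (ℤ × ℤ) × Fin (m * m) =>
    trK hInt hGr hFin hD i hK hKT hd0 hb (κ q.1 q.2) (hκm q.1 q.2) (hκb q.1 q.2)
  obtain ⟨e⟩ : Nonempty (Fin (J.card * (m * m)) ≃ J × Fin (m * m)) :=
    ⟨finProdFinEquiv.symm.trans (Equiv.prodCongr J.equivFin.symm (Equiv.refl _))⟩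
  refine ⟨J.card * (m * m), fun l x => √d1 * k ((e l).1.1, (e l).2) x, ?_, ?_, ?_⟩
  · push_cast
    have h1 : (J.card : ℝ) * (3 * r ^ 2) * (B * Λ) ≤ δ / d0 * (B * Λ) :=
      mul_le_mul_of_nonneg_right hcard (by positivity)
    have h2 : (J.card : ℝ) * ((m : ℝ) * m) ≤ (J.card : ℝ) * (4 * (r ^ 2 * B * Λ)) := by
      refine mul_le_mul_of_nonneg_left ?_ (by positivity)
      rw [← pow_two]
      exact hm2
    have h3 : 2 * B / d0 * δ * Λ = 2 * (δ / d0 * (B * Λ)) := by ring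
    have h4 : 0 ≤ (J.card : ℝ) * (r ^ 2 * (B * Λ)) := by positivity
    rw [h3]
    nlinarith [h1, h2, h4]
  · intro l
    exact (hkm _).const_mul (√d1)
  · intro F hF
    have hfC : ContDiffOn ℝ 1 (fun z => F (D.ψ i z)) (D.T i) := hF i
    have hfc : ContinuousOn (fun z => F (D.ψ i z)) K := hfC.continuousOn.mono hKT
    have hf1 : ContinuousOn (fderiv ℝ (fun z => F (D.ψ i z))) K :=
      (hfC.continuousOn_fderiv_of_isOpen (hD.openT i) le_rfl).mono hKT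
    have if2 : IntegrableOn (fun z => F (D.ψ i z) ^ 2) K := (hfc.pow 2).integrableOn_compact hK
    have ig2 : IntegrableOn (fun z => ‖fderiv ℝ (fun z => F (D.ψ i z)) z‖ ^ 2) K :=
      (hf1.norm.pow 2).integrableOn_compact hK
    have hSqm : ∀ p ∈ J, MeasurableSet (Sq (cen r p) r) :=
      fun p _ => (sq_closed _ _).measurableSet
    -- the functionals
    have s6 : ∑ l, (∫ x, F x * (√d1 * k ((e l).1.1, (e l).2) x) ∂μ) ^ 2 =
        d1 * ∑ p ∈ J, ∑ j, (∫ z in Sq (cen r p) r, F (D.ψ i z) * κ p j z) ^ 2 := by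
      rw [Equiv.sum_comp e (fun q : J × Fin (m * m) =>
        (∫ x, F x * (√d1 * k (q.1.1, q.2) x) ∂μ) ^ 2), Fintype.sum_prod_type]
      rw [Finset.sum_coe_sort J (fun p => ∑ j, (∫ x, F x * (√d1 * k (p, j) x) ∂μ) ^ 2),
        Finset.mul_sum]
      refine Finset.sum_congr rfl fun p hp => ?_
      rw [Finset.mul_sum]
      refine Finset.sum_congr rfl fun j _ => ?_
      have e1 : ∫ x, F x * (√d1 * k (p, j) x) ∂μ = √d1 * ∫ x, F x * k (p, j) x ∂μ := by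
        rw [← integral_const_mul]
        refine integral_congr_ae (Eventually.of_forall fun x => ?_)
        show F x * (√d1 * k (p, j) x) = √d1 * (F x * k (p, j) x)
        ring
      have e2 : ∫ z in K, F (D.ψ i z) * κ p j z =
          ∫ z in Sq (cen r p) r, F (D.ψ i z) * κ p j z := by
        apply setIntegral_eq_of_subset_of_forall_diff_eq_zero hK.measurableSet (hJK p hp)
        intro z hz
        rw [hκz p j z hz.2, mul_zero]
      rw [e1, hk (p, j) F hF, e2, mul_pow, Real.sq_sqrt hd1.le]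
    rw [s6]
    have t1 := trB hInt hGr hD i hRC hRCU (d1 := d1) (fun z hz => (hb z (hSK (by
      rw [hSdef]; exact hz))).2.1) hF
    rw [← hSdef] at t1
    have t2 := cov_le (ν := (volume : Measure ℂ)) J (fun p => Sq (cen r p) r) hS.measurableSet hSK
      hSqm hJK hcov if2 (fun z => sq_nonneg _)
    have t3 : ∑ p ∈ J, ∫ z in Sq (cen r p) r, F (D.ψ i z) ^ 2 ≤
        ∑ p ∈ J, (4 * r ^ 2 / m ^ 2 *
          (∫ z in Sq (cen r p) r, ‖fderiv ℝ (fun z => F (D.ψ i z)) z‖ ^ 2) +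
          ∑ j, (∫ z in Sq (cen r p) r, F (D.ψ i z) * κ p j z) ^ 2) :=
      Finset.sum_le_sum fun p hp =>
        hκ p (D.T i) (fun z => F (D.ψ i z)) (hD.openT i) ((hJK p hp).trans hKT) hfC
    rw [Finset.sum_add_distrib, ← Finset.mul_sum] at t3
    have t4 := ovl_le hr J hJK ig2 (fun z => sq_nonneg _)
    have t5 := trG hInt hGr hFin hD i hK hKT hd0 hb hF
    obtain ⟨G, hG⟩ : ∃ G : ℝ, G = ∫ x, ‖D.gr F x‖ ^ 2 ∂μ := ⟨_, rfl⟩
    have hG0 : 0 ≤ G := by rw [hG]; exact integral_nonneg fun x => sq_nonneg _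
    rw [← hG] at t5 ⊢
    have hm0 : (0 : ℝ) < m := by exact_mod_cast hm
    -- the constant
    have t6 : d1 * (4 * r ^ 2 / m ^ 2 * (4 * (a1 ^ 2 / d0 * G))) ≤
        ((D.N : ℝ) + 1)⁻¹ * Λ⁻¹ * G := by
      have e1 : d1 * (4 * r ^ 2 / m ^ 2 * (4 * (a1 ^ 2 / d0 * G))) =
          (16 * d1 * a1 ^ 2 / d0 * r ^ 2 / m ^ 2) * G := by ring
      rw [e1]
      refine mul_le_mul_of_nonneg_right ?_ hG0
      rw [div_le_iff₀ (by positivity), ← hn']
      have e2 : n'⁻¹ * Λ⁻¹ * (r ^ 2 * B * Λ) ≤ n'⁻¹ * Λ⁻¹ * (m : ℝ) ^ 2 :=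
        mul_le_mul_of_nonneg_left hm1 (by positivity)
      refine le_trans (le_of_eq ?_) e2
      rw [hBdef]
      field_simp
    calc ∫ x in R ∩ Cc, (F x) ^ 2 ∂μ ≤ d1 * ∫ z in S, (F (D.ψ i z)) ^ 2 := t1
      _ ≤ d1 * ∑ p ∈ J, ∫ z in Sq (cen r p) r, F (D.ψ i z) ^ 2 :=
          mul_le_mul_of_nonneg_left t2 hd1.le
      _ ≤ d1 * (4 * r ^ 2 / m ^ 2 *
          (∑ p ∈ J, ∫ z in Sq (cen r p) r, ‖fderiv ℝ (fun z => F (D.ψ i z)) z‖ ^ 2) +
          ∑ p ∈ J, ∑ j, (∫ z in Sq (cen r p) r, F (D.ψ i z) * κ p j z) ^ 2) :=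
          mul_le_mul_of_nonneg_left t3 hd1.le
      _ ≤ d1 * (4 * r ^ 2 / m ^ 2 * (4 * (a1 ^ 2 / d0 * G)) +
          ∑ p ∈ J, ∑ j, (∫ z in Sq (cen r p) r, F (D.ψ i z) * κ p j z) ^ 2) := by
          refine mul_le_mul_of_nonneg_left (add_le_add ?_ le_rfl) hd1.le
          refine mul_le_mul_of_nonneg_left (t4.trans ?_) (by positivity)
          exact mul_le_mul_of_nonneg_left t5 (by norm_num)
      _ = d1 * (4 * r ^ 2 / m ^ 2 * (4 * (a1 ^ 2 / d0 * G))) +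
          d1 * ∑ p ∈ J, ∑ j, (∫ z in Sq (cen r p) r, F (D.ψ i z) * κ p j z) ^ 2 := mul_add _ _ _
      _ ≤ _ := add_le_add t6 le_rfl

end main

/-- **The spectral inequality on a small closed set.** -/
theorem left : StInt → StGr → StFin → StSub → StLeft := by
  intro hInt hGr hFin hSub M _ _ _ _ μ D hD
  obtain ⟨hfin, -⟩ := hFin M μ D hD
  obtain ⟨hG1, -, -⟩ := hGr M μ D hD
  obtain ⟨v, hv, hvc, hvU⟩ := exists_iUnion_eq_closed_subset (u := D.U) hD.openU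
    (fun x => Set.toFinite _) (by
      rw [eq_univ_iff_forall]
      intro x
      obtain ⟨i, hi⟩ := hD.cover x
      exact mem_iUnion.mpr ⟨i, hi⟩)
  choose C hC hCR using fun i => chartLem hInt hGr hFin hSub hD i (hvc i).isCompact (hvU i)
  have hCs : 0 ≤ ∑ i, C i := Finset.sum_nonneg fun i _ => (hC i).le
  refine ⟨1 + ∑ i, C i, by linarith, fun R hR δ hδ hμ => ?_⟩
  choose Λ₀ hΛ₀ hΛ using fun i => hCR i R hR δ hδ hμ
  have hΛs : 0 ≤ ∑ i, Λ₀ i := Finset.sum_nonneg fun i _ => (hΛ₀ i).le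
  refine ⟨1 + ∑ i, Λ₀ i, fun Λ hle => ?_⟩
  have hΛ0 : 0 < Λ := by linarith
  have hΛi : ∀ i, Λ₀ i ≤ Λ := by
    intro i
    have := Finset.single_le_sum (f := Λ₀) (fun i _ => (hΛ₀ i).le) (Finset.mem_univ i)
    linarith
  choose N κ hN hκ hF using fun i => hΛ i Λ (hΛi i)
  refine ⟨∑ i, N i, fun l => κ (finSigmaFinEquiv.symm l).1 (finSigmaFinEquiv.symm l).2,
    ?_, fun l => hκ _ _, fun F hFC => ?_⟩
  · push_cast
    calc ∑ i, (N i : ℝ) ≤ ∑ i, C i * δ * Λ := Finset.sum_le_sum fun i _ => hN i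
      _ = (∑ i, C i) * δ * Λ := by rw [Finset.sum_mul, Finset.sum_mul]
      _ ≤ (1 + ∑ i, C i) * δ * Λ := by
          have h1 : 0 ≤ δ * Λ := by positivity
          nlinarith [h1]
  · rw [Equiv.sum_comp finSigmaFinEquiv.symm
      (fun q : (i : Fin D.N) × Fin (N i) => (∫ x, F x * κ q.1 q.2 x ∂μ) ^ 2), Fintype.sum_sigma]
    obtain ⟨hFc, -, -⟩ := hG1 F hFC
    obtain ⟨CF, hCF⟩ : ∃ CF, ∀ x, ‖F x‖ ≤ CF := by
      obtain ⟨C, hC⟩ := isCompact_univ.exists_bound_of_continuousOn hFc.continuousOn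
      exact ⟨C, fun x => hC x (mem_univ x)⟩
    have hF2 : Integrable (fun x => F x ^ 2) μ := by
      refine Integrable.of_bound (hFc.pow 2).aestronglyMeasurable (CF ^ 2)
        (Eventually.of_forall fun x => ?_)
      rw [norm_pow]
      exact pow_le_pow_left₀ (norm_nonneg _) (hCF x) 2
    have h1 := cov_le (ν := μ) (Finset.univ : Finset (Fin D.N)) (fun i => R ∩ v i)
      hR.measurableSet (subset_refl R) (fun i _ => (hR.inter (hvc i)).measurableSet)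
      (fun i _ => inter_subset_left) (fun x hx => by
        have h2 : x ∈ ⋃ i, v i := by rw [hv]; exact mem_univ x
        obtain ⟨i, hi⟩ := mem_iUnion.mp h2
        exact ⟨i, Finset.mem_univ i, hx, hi⟩) hF2.integrableOn (fun x => sq_nonneg _)
    have h2 : ∑ i, ∫ x in R ∩ v i, F x ^ 2 ∂μ ≤ ∑ i : Fin D.N,
        (((D.N : ℝ) + 1)⁻¹ * Λ⁻¹ * (∫ x, ‖D.gr F x‖ ^ 2 ∂μ) +
            ∑ j, (∫ x, F x * κ i j x ∂μ) ^ 2) :=
      Finset.sum_le_sum fun i _ => hF i F hFC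
    rw [Finset.sum_add_distrib, Finset.sum_const, Finset.card_univ, Fintype.card_fin,
      nsmul_eq_mul] at h2
    refine h1.trans (h2.trans (add_le_add ?_ le_rfl))
    obtain ⟨G, hG⟩ : ∃ G : ℝ, G = ∫ x, ‖D.gr F x‖ ^ 2 ∂μ := ⟨_, rfl⟩
    have hG0 : 0 ≤ G := by rw [hG]; exact integral_nonneg fun x => sq_nonneg _
    rw [← hG]
    have h3 : (D.N : ℝ) * (((D.N : ℝ) + 1)⁻¹ * Λ⁻¹ * G) =
        ((D.N : ℝ) * ((D.N : ℝ) + 1)⁻¹) * (Λ⁻¹ * G) := by ring
    rw [h3]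
    have h4 : (D.N : ℝ) * ((D.N : ℝ) + 1)⁻¹ ≤ 1 := by
      rw [← div_eq_mul_inv, div_le_one (by positivity)]
      linarith
    calc (D.N : ℝ) * ((D.N : ℝ) + 1)⁻¹ * (Λ⁻¹ * G) ≤ 1 * (Λ⁻¹ * G) :=
          mul_le_mul_of_nonneg_right h4 (by positivity)
      _ = Λ⁻¹ * G := one_mul _

/-- the closed form -/
theorem tLeft : StLeft := left Pool.Agent.Y960.QE.int_chart Pool.Agent.Y708.QE.gradient
  Pool.Agent.Y274.QE.Fin.fin (Pool.Agent.Y540.QE.sub Pool.Agent.Y540.QE.poin)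

end Pool.Agent.Y319.QR
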